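import Pool.Agent.L7h93.HE.Sets

/-!
# The bound of the conjecture for the points with a coordinate in a given set
-/

set_option autoImplicit false

namespace Pool.Agent.L7h93.HE

open Finset Polynomial Filter Topology

/-- `|x| ≤ M(f)^C` for all integral points `(x, y)` with `|x|` in `W` of all curves `y² = f(x)`, where `f` has integer
coefficients, degree `d` and no repeated roots; `M(f)` is the largest absolute value of a coefficient -/
def BoundX (d : ℕ) (C : ℝ) (W : Set ℝ) : Prop :=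
  ∀ (f : ℤ[X]) (x y : ℤ), f.natDegree = d → (f.map (Int.castRingHom ℚ)).Separable → y ^ 2 = f.eval x →
    |(x : ℝ)| ∈ W → |(x : ℝ)| ≤ (ht f : ℝ) ^ C

/-- the same for the integral points `(x, y)` with `|y|` in `W` -/
def BoundY (d : ℕ) (C : ℝ) (W : Set ℝ) : Prop :=
  ∀ (f : ℤ[X]) (x y : ℤ), f.natDegree = d → (f.map (Int.castRingHom ℚ)).Separable → y ^ 2 = f.eval x →
    |(y : ℝ)| ∈ W → |(x : ℝ)| ≤ (ht f : ℝ) ^ C

lemma boundX_of {d : ℕ} {C : ℝ} {W : Set ℝ} (h : ∀ t ∈ Ex d C, (t : ℝ) ∉ W) : BoundX d C W := by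
  intro f x y h1 h2 h3 h4
  by_contra hcon
  push Not at hcon
  apply h x.natAbs ⟨f, x, y, ⟨h1, h2, h3, hcon⟩, rfl⟩
  rw [natAbs_cast]
  exact h4

lemma boundY_of {d : ℕ} {C : ℝ} {W : Set ℝ} (h : ∀ t ∈ Ey d C, (t : ℝ) ∉ W) : BoundY d C W := by
  intro f x y h1 h2 h3 h4
  by_contra hcon
  push Not at hcon
  apply h y.natAbs ⟨f, x, y, ⟨h1, h2, h3, hcon⟩, rfl⟩
  rw [natAbs_cast]
  exact h4

lemma not_boundX {d : ℕ} {C : ℝ} {W : Set ℝ} (h : ¬ BoundX d C W) : ∃ t ∈ Ex d C, (t : ℝ) ∈ W := by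
  by_contra hcon
  push Not at hcon
  exact h (boundX_of hcon)

lemma not_boundY {d : ℕ} {C : ℝ} {W : Set ℝ} (h : ¬ BoundY d C W) : ∃ t ∈ Ey d C, (t : ℝ) ∈ W := by
  by_contra hcon
  push Not at hcon
  exact h (boundY_of hcon)

lemma ht_pow_mono {d : ℕ} (hd : 1 ≤ d) {f : ℤ[X]} (hf : f.natDegree = d) {q C : ℝ} (hq : q ≤ C) :
    (ht f : ℝ) ^ q ≤ (ht f : ℝ) ^ C := by
  have hf0 : f ≠ 0 := by
    rintro rfl
    rw [natDegree_zero] at hf
    omega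
  exact Real.rpow_le_rpow_of_exponent_le (by exact_mod_cast one_le_ht hf0) hq

lemma boundX_mono {d : ℕ} (hd : 1 ≤ d) {q C : ℝ} (hq : q ≤ C) {W : Set ℝ} (h : BoundX d q W) : BoundX d C W :=
  fun f x y h1 h2 h3 h4 => (h f x y h1 h2 h3 h4).trans (ht_pow_mono hd h1 hq)

lemma boundY_mono {d : ℕ} (hd : 1 ≤ d) {q C : ℝ} (hq : q ≤ C) {W : Set ℝ} (h : BoundY d q W) : BoundY d C W :=
  fun f x y h1 h2 h3 h4 => (h f x y h1 h2 h3 h4).trans (ht_pow_mono hd h1 hq)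

/-- a rational exponent for the abscissas -/
lemma exists_rat_x (d : ℕ) {C θ : ℝ} (hC : 2 < C) (hθ : θ < 1 - sx d C) : ∃ q : ℚ, 2 ≤ (q : ℝ) ∧ (q : ℝ) ≤ C ∧
    θ < 1 - sx d q := by
  have hC0 : 0 < C := by linarith
  have h1 : ((d : ℝ) + 1) / C < 1 / 2 - θ := by
    rw [sx] at hθ
    linarith
  have h2 : 0 < 1 / 2 - θ := lt_of_le_of_lt (by positivity) h1
  have h3 : ((d : ℝ) + 1) / (1 / 2 - θ) < C := by
    rw [div_lt_iff₀ h2]
    rw [div_lt_iff₀ hC0] at h1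
    linarith
  obtain ⟨q, hq1, hq2⟩ := exists_rat_btwn (max_lt hC h3)
  refine ⟨q, ((le_max_left _ _).trans hq1.le), hq2.le, ?_⟩
  have h4 : ((d : ℝ) + 1) / (1 / 2 - θ) < q := (le_max_right _ _).trans_lt hq1
  have hq0 : (0 : ℝ) < q := by
    have := (le_max_left _ _).trans hq1.le
    linarith
  rw [div_lt_iff₀ h2] at h4
  have h5 : ((d : ℝ) + 1) / q < 1 / 2 - θ := by
    rw [div_lt_iff₀ hq0]
    linarith
  rw [sx]
  linarith

lemma sy_eq {d : ℕ} (hd : 1 ≤ d) {C : ℝ} (hC : 0 < C) : sy d C = 2 / d * sx d C := by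
  have hD0 : (0 : ℝ) < d := by exact_mod_cast hd
  rw [sy, sx]
  field_simp

/-- a rational exponent for the ordinates -/
lemma exists_rat_y {d : ℕ} (hd : 1 ≤ d) {C θ : ℝ} (hC : 2 < C) (hθ : θ < 1 - sy d C) : ∃ q : ℚ, 2 ≤ (q : ℝ) ∧
    (q : ℝ) ≤ C ∧ θ < 1 - sy d q := by
  have hD0 : (0 : ℝ) < d := by exact_mod_cast hd
  rw [sy_eq hd (by linarith)] at hθ
  have h1 : 1 - (d : ℝ) / 2 * (1 - θ) < 1 - sx d C := by
    have h2 : 2 / d * sx d C < 1 - θ := by linarith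
    have h3 : (d : ℝ) / 2 * (2 / d * sx d C) < d / 2 * (1 - θ) := mul_lt_mul_of_pos_left h2 (by positivity)
    have h4 : (d : ℝ) / 2 * (2 / d * sx d C) = sx d C := by field_simp
    linarith
  obtain ⟨q, hq1, hq2, hq3⟩ := exists_rat_x d hC h1
  refine ⟨q, hq1, hq2, ?_⟩
  rw [sy_eq hd (by linarith)]
  have h2 : sx d q < (d : ℝ) / 2 * (1 - θ) := by linarith
  have h3 : 2 / (d : ℝ) * sx d q < 2 / d * (d / 2 * (1 - θ)) := mul_lt_mul_of_pos_left h2 (by positivity)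
  have h4 : 2 / (d : ℝ) * (d / 2 * (1 - θ)) = 1 - θ := by field_simp
  linarith

lemma sx_nonneg (d : ℕ) {C : ℝ} (hC : 0 < C) : 0 ≤ sx d C := by unfold sx; positivity

lemma sy_nonneg (d : ℕ) {C : ℝ} (hC : 0 < C) : 0 ≤ sy d C := by unfold sy; positivity

end Pool.Agent.L7h93.HE
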