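import Pool.Agent.L7h93.HE.Sieve

/-!
# Counting the square values of a polynomial, uniformly in the polynomial
-/

set_option autoImplicit false

namespace Pool.Agent.L7h93.HE

open Finset Polynomial Filter Topology

lemma pi_lower : ∀ᶠ x : ℕ in atTop, (x : ℝ) / (2 * Real.log x) ≤ (Nat.primeCounting x : ℝ) := by
  have h1 : ∀ᶠ x : ℝ in atTop, Real.log x ≤ (1 / 20) * x := by
    have := Real.isLittleO_log_id_atTop.bound (show (0 : ℝ) < 1 / 20 by norm_num)
    filter_upwards [this, eventually_ge_atTop (1 : ℝ)] with x hx hx1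
    simp only [id, Real.norm_eq_abs] at hx
    rw [abs_of_nonneg (by linarith : (0 : ℝ) ≤ x)] at hx
    exact (le_abs_self _).trans hx
  have h2 : Tendsto (fun x : ℕ => (x : ℝ) + 1) atTop atTop :=
    tendsto_natCast_atTop_atTop.atTop_add tendsto_const_nhds
  filter_upwards [h2.eventually h1, eventually_ge_atTop 3] with x hx hx3
  have hx3' : (3 : ℝ) ≤ x := by exact_mod_cast hx3
  refine le_trans ?_ (Chebyshev.pi_ge x)
  have hlog : 0 < Real.log x := Real.log_pos (by linarith)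
  have h3 : (x : ℝ) / (2 * Real.log x) = (x / 2) / Real.log x := by
    field_simp
  rw [h3]
  apply div_le_div_of_nonneg_right _ hlog.le
  have := Real.log_two_gt_d9
  nlinarith

/-- logarithms are small -/
lemma log_small (A : ℝ) (hA : 0 ≤ A) : ∀ᶠ N : ℕ in atTop,
    A * (1 + Real.log N) * Real.log N ≤ √(N : ℝ) := by
  have h0 : Tendsto (fun x : ℕ => (x : ℝ)) atTop atTop := tendsto_natCast_atTop_atTop
  have h1 : ∀ᶠ x : ℝ in atTop, Real.log x ≤ (1 / (2 * A + 1)) * x ^ (1 / 4 : ℝ) := by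
    have := (isLittleO_log_rpow_atTop (show (0 : ℝ) < 1 / 4 by norm_num)).bound
      (show (0 : ℝ) < 1 / (2 * A + 1) by positivity)
    filter_upwards [this, eventually_ge_atTop (1 : ℝ)] with x hx hx1
    simp only [Real.norm_eq_abs] at hx
    rw [abs_of_nonneg (by positivity : (0 : ℝ) ≤ x ^ (1 / 4 : ℝ))] at hx
    exact (le_abs_self _).trans hx
  filter_upwards [h0.eventually h1, eventually_ge_atTop 3] with N h hN3
  have hN3' : (3 : ℝ) ≤ N := by exact_mod_cast hN3
  have hl1 : 1 ≤ Real.log N := by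
    rw [Real.le_log_iff_exp_le (by linarith)]
    exact Real.exp_one_lt_d9.le.trans (by linarith)
  obtain ⟨t, ht⟩ : ∃ t : ℝ, t = (N : ℝ) ^ (1 / 4 : ℝ) := ⟨_, rfl⟩
  have ht2 : √(N : ℝ) = t * t := by
    rw [ht, ← Real.rpow_add (by linarith), Real.sqrt_eq_rpow]
    norm_num
  rw [← ht] at h
  rw [ht2]
  have ht0 : 0 ≤ t := by rw [ht]; positivity
  have h2 : 1 / (2 * A + 1) ≤ 1 := by
    rw [div_le_one (by positivity)]
    linarith
  have h3 : Real.log N ≤ t := h.trans (by nlinarith)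
  have h4 : A * (1 + Real.log N) ≤ t := by
    have h5 : (2 * A + 1) * Real.log N ≤ t := by
      have := mul_le_mul_of_nonneg_left h (show 0 ≤ 2 * A + 1 by positivity)
      rwa [← mul_assoc, mul_one_div_cancel (by positivity), one_mul] at this
    nlinarith
  exact mul_le_mul h4 h3 (by linarith) ht0

/-- the size of the values -/
lemma eval_le (f : ℤ[X]) (D : ℕ) (hD : f.natDegree ≤ D) (M R : ℝ) (hM : 0 ≤ M) (hR : 1 ≤ R)
    (hf : ∀ i, |((f.coeff i : ℤ) : ℝ)| ≤ M) (j : ℤ) (hj : |(j : ℝ)| ≤ R) :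
    |((f.eval j : ℤ) : ℝ)| ≤ (D + 1) * M * R ^ D := by
  rw [eval_eq_sum_range' (Nat.lt_succ_of_le hD)]
  push_cast
  refine (abs_sum_le_sum_abs _ _).trans ?_
  refine (sum_le_sum (g := fun _ => M * R ^ D) fun i hi => ?_).trans (le_of_eq ?_)
  · rw [mem_range] at hi
    rw [abs_mul, abs_pow]
    refine mul_le_mul (hf i) ?_ (by positivity) hM
    exact (pow_le_pow_left₀ (abs_nonneg _) hj i).trans
      (pow_le_pow_right₀ hR (Nat.le_of_lt_succ hi))
  · rw [sum_const, card_range, nsmul_eq_mul]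
    push_cast
    ring

open Classical in
/-- the square values of a separable polynomial with small coefficients -/
theorem count_sq (D : ℕ) (hD : 1 ≤ D) : ∃ K : ℝ, ∃ N₀ : ℕ, 0 < K ∧ 3 ≤ N₀ ∧ ∀ N : ℕ, N₀ ≤ N →
    ∀ f : ℤ[X], 1 ≤ f.natDegree → f.natDegree ≤ D → (f.map (Int.castRingHom ℚ)).Separable →
    (∀ i, |((f.coeff i : ℤ) : ℝ)| ≤ N) → ∀ T : Finset ℤ,
    (∀ x ∈ T, |x| ≤ N ∧ ∃ z : ℤ, f.eval x = z ^ 2) → (T.card : ℝ) ≤ K * (√(N : ℝ) * Real.log N) := by
  obtain ⟨Cb, hCb, hbad⟩ := Pool.Agent.R418.UP.card_bad D hD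
  have hsq : Tendsto Nat.sqrt atTop atTop := by
    refine tendsto_atTop.2 fun b => ?_
    filter_upwards [eventually_ge_atTop (b * b)] with x hx
    exact Nat.le_sqrt.2 hx
  obtain ⟨A, hA⟩ : ∃ A : ℝ, A = 32 * (16 * (D : ℝ) ^ 2 + 2 + Cb) + 128 * (2 * D + 2) + 16 := ⟨_, rfl⟩
  have hD1 : (1 : ℝ) ≤ D := by exact_mod_cast hD
  have hA0 : 0 ≤ A := by rw [hA]; positivity
  obtain ⟨N₀, hN₀⟩ := eventually_atTop.1 (((log_small A hA0).and (hsq.eventually pi_lower)).and
    (eventually_ge_atTop 16))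
  refine ⟨96 * 4 * 8 * 4 + D, max N₀ 3, by positivity, le_max_right _ _, ?_⟩
  intro N hN f hd1 hd2 hsep hfc T hT
  obtain ⟨⟨hs, hp⟩, hN16⟩ := hN₀ N ((le_max_left _ _).trans hN)
  have hN16' : (16 : ℝ) ≤ N := by exact_mod_cast hN16
  have hN0 : (0 : ℝ) < N := by linarith
  have hl1 : 1 ≤ Real.log N := by
    rw [Real.le_log_iff_exp_le (by linarith)]
    exact Real.exp_one_lt_d9.le.trans (by linarith)
  obtain ⟨s, hsdef⟩ : ∃ s : ℝ, s = √(N : ℝ) := ⟨_, rfl⟩
  have hss : s * s = N := by rw [hsdef]; exact Real.mul_self_sqrt hN0.le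
  have hs4 : 4 ≤ s := by
    rw [hsdef]
    apply Real.le_sqrt_of_sq_le
    linarith
  rw [← hsdef] at hs ⊢
  obtain ⟨F, hF⟩ : ∃ F : ℕ, F = Nat.sqrt N := ⟨_, rfl⟩
  rw [← hF] at hp
  have hF2 : F ^ 2 ≤ N := by
    rw [hF, sq]
    exact Nat.sqrt_le N
  have hF1 : s ≤ F + 1 := by
    rw [hsdef, hF]
    apply Real.sqrt_le_iff.2
    refine ⟨by positivity, ?_⟩
    have : N < (Nat.sqrt N + 1) * (Nat.sqrt N + 1) := Nat.lt_succ_sqrt N
    have h' : (N : ℝ) < (Nat.sqrt N + 1) * (Nat.sqrt N + 1) := by exact_mod_cast this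
    rw [sq]
    exact h'.le
  have hFs : (F : ℝ) ≤ s := by
    rw [hsdef]
    apply Real.le_sqrt_of_sq_le
    exact_mod_cast hF2
  -- the primes
  obtain ⟨P₀, hP₀⟩ : ∃ P₀ : Finset ℕ, P₀ = (range (F + 1)).filter Nat.Prime := ⟨_, rfl⟩
  have hP₀p : ∀ p ∈ P₀, p.Prime := fun p hp => by
    rw [hP₀, mem_filter] at hp
    exact hp.2
  have hP₀c : s / (4 * Real.log N) ≤ P₀.card := by
    have h1 : P₀.card = Nat.primeCounting F := by
      rw [hP₀, Nat.primeCounting, Nat.primeCounting', Nat.count_eq_card_filter_range]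
    rw [h1]
    refine le_trans ?_ hp
    have hF3 : (3 : ℝ) ≤ F := by linarith
    have h2 : Real.log F ≤ Real.log N := by
      apply Real.log_le_log (by linarith)
      nlinarith
    have h3 : 0 < Real.log F := Real.log_pos (by linarith)
    rw [div_le_div_iff₀ (by positivity) (by positivity)]
    have h4 : s ≤ 2 * F := by linarith
    nlinarith
  obtain ⟨P, hP⟩ : ∃ P : Finset ℕ, P = P₀.filter
    (fun p : ℕ => ¬ ((p : ℤ) ∣ Pool.Agent.R418.UP.bad f ∨ p < 16 * D ^ 2 + 3)) := ⟨_, rfl⟩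
  have hPsplit : (P₀.card : ℝ) ≤ P.card + (Cb * (1 + Real.log N) + (16 * (D : ℝ) ^ 2 + 3)) := by
    have h1 : P₀ ⊆ P ∪ (P₀.filter (fun p : ℕ => (p : ℤ) ∣ Pool.Agent.R418.UP.bad f) ∪
        range (16 * D ^ 2 + 3)) := by
      intro p hp
      rw [mem_union, mem_union, hP, mem_filter, mem_filter, mem_range]
      tauto
    have h2 : P₀.card ≤ P.card + ((P₀.filter (fun p : ℕ => (p : ℤ) ∣ Pool.Agent.R418.UP.bad f)).card +
        (16 * D ^ 2 + 3)) := by
      refine (card_le_card h1).trans ((card_union_le _ _).trans ?_)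
      refine Nat.add_le_add_left ((card_union_le _ _).trans ?_) _
      rw [card_range]
    have h3 := hbad f N (by linarith) hd2 hsep hfc P₀ hP₀p
    have h4 : (P₀.card : ℝ) ≤ P.card +
        ((P₀.filter (fun p : ℕ => (p : ℤ) ∣ Pool.Agent.R418.UP.bad f)).card +
        (16 * (D : ℝ) ^ 2 + 3)) := by exact_mod_cast h2
    linarith
  have hlogA : A * (1 + Real.log N) ≤ s / Real.log N := by
    rw [le_div_iff₀ (by linarith)]
    exact hs
  obtain ⟨q, hq⟩ : ∃ q : ℝ, q = s / Real.log N := ⟨_, rfl⟩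
  have hq4 : s / (4 * Real.log N) = q / 4 := by
    rw [hq, mul_comm, ← div_div]
  have hqs : q * Real.log N = s := by rw [hq, div_mul_cancel₀ _ (by linarith)]
  rw [← hq] at hlogA
  rw [hq4] at hP₀c
  have hD2 : (0 : ℝ) ≤ (D : ℝ) ^ 2 := by positivity
  have hPc : q / 8 ≤ P.card := by
    have h1 : Cb * (1 + Real.log N) + (16 * (D : ℝ) ^ 2 + 3) ≤ q / 8 := by
      have h2 : (Cb + (16 * (D : ℝ) ^ 2 + 3)) * (1 + Real.log N) ≤ A / 8 * (1 + Real.log N) := by
        apply mul_le_mul_of_nonneg_right _ (by linarith)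
        rw [hA]
        nlinarith
      nlinarith
    linarith
  have hL : Real.log (D + 1) + (D + 1) * Real.log N ≤ P.card / 8 := by
    have h1 : Real.log ((D : ℝ) + 1) ≤ D + 1 := by
      have := Real.log_le_sub_one_of_pos (show (0 : ℝ) < D + 1 by positivity)
      linarith
    have h2 : ((D : ℝ) + 1) * (1 + Real.log N) ≤ A / 64 * (1 + Real.log N) := by
      apply mul_le_mul_of_nonneg_right _ (by linarith)
      rw [hA]
      nlinarith
    nlinarith
  have hPm : ∀ p ∈ P, p.Prime ∧ p ≤ F ∧ ¬ (p : ℤ) ∣ Pool.Agent.R418.UP.bad f ∧ 16 * D ^ 2 + 3 ≤ p := by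
    intro p hp
    rw [hP, mem_filter, hP₀, mem_filter, mem_range] at hp
    push Not at hp
    exact ⟨hp.1.2, by omega, hp.2.1, hp.2.2⟩
  have hmu : ∀ p ∈ P, |mu f p| ≤ 1 / 4 := by
    intro p hp
    obtain ⟨h1, h2, h3, h4⟩ := hPm p hp
    apply mu_small f hd1 h1 (by omega) h3
    have : f.natDegree ^ 2 ≤ D ^ 2 := Nat.pow_le_pow_left hd2 2
    omega
  -- the two parts
  have hf0 : f ≠ 0 := by
    intro h
    rw [h] at hd1
    simp at hd1
  have h0 : ((T.filter (fun x => f.eval x = 0)).card : ℝ) ≤ D := by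
    have h1 : (T.filter (fun x => f.eval x = 0)) ⊆ f.roots.toFinset := by
      intro x hx
      rw [mem_filter] at hx
      rw [Multiset.mem_toFinset, mem_roots hf0]
      exact hx.2
    have h2 := (card_le_card h1).trans ((Multiset.toFinset_card_le _).trans (card_roots' f))
    exact_mod_cast h2.trans hd2
  have h1 := sieve f N F hF2 P (fun p hp => ⟨(hPm p hp).1, (hPm p hp).2.1⟩) hmu
    (Real.log (D + 1) + (D + 1) * Real.log N) hL (T.filter (fun x => ¬ f.eval x = 0)) (by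
      intro x hx
      rw [mem_filter] at hx
      obtain ⟨hx1, z, hz⟩ := hT x hx.1
      have hz0 : z ≠ 0 := by
        rintro rfl
        exact hx.2 (by rw [hz]; ring)
      refine ⟨hx1, z, hz0, hz, ?_⟩
      have h2 : |(x : ℝ)| ≤ N := by
        have : ((|x| : ℤ) : ℝ) ≤ ((N : ℤ) : ℝ) := by exact_mod_cast hx1
        rw [Int.cast_abs, Int.cast_natCast] at this
        exact this
      have h3 := eval_le f D hd2 N N hN0.le (by linarith) hfc x h2
      rw [hz] at h3
      push_cast at h3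
      rw [abs_pow] at h3
      have hz1 : 0 < |(z : ℝ)| := abs_pos.2 (by exact_mod_cast hz0)
      have h4 : Real.log (|(z : ℝ)| ^ 2) ≤ Real.log ((D + 1) * N * N ^ D) :=
        Real.log_le_log (by positivity) h3
      rw [Real.log_pow] at h4
      push_cast at h4
      refine h4.trans (le_of_eq ?_)
      rw [mul_assoc, Real.log_mul (by positivity) (by positivity), ← pow_succ', Real.log_pow]
      push_cast
      ring)
  have h2 : (T.card : ℝ) = (T.filter (fun x => f.eval x = 0)).card +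
      (T.filter (fun x => ¬ f.eval x = 0)).card := by
    have := card_filter_add_card_filter_not (s := T) (fun x => f.eval x = 0)
    exact_mod_cast this.symm
  obtain ⟨t, ht⟩ : ∃ t : ℝ, t = (T.filter (fun x => ¬ f.eval x = 0)).card := ⟨_, rfl⟩
  rw [← ht] at h1 h2
  have ht0 : 0 ≤ t := by rw [ht]; exact Nat.cast_nonneg _
  have hq0 : 0 < q := by
    rw [hq]
    have : 0 < s := by linarith
    have : 0 < Real.log N := by linarith
    positivity
  have h3 : t ≤ 3072 * (s * Real.log N) := by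
    have h4 : t * (q / 8) ≤ 96 * (3 * N + 1) := (mul_le_mul_of_nonneg_left hPc ht0).trans h1
    have h5 : t * q ≤ 3072 * (s * Real.log N) * q := by
      have h6 : 3072 * (s * Real.log N) * q = 3072 * (s * s) := by
        rw [← hqs]
        ring
      rw [h6, hss]
      linarith
    exact le_of_mul_le_mul_right h5 hq0
  have h6 : 1 ≤ s * Real.log N := by nlinarith
  rw [h2]
  nlinarith

end Pool.Agent.L7h93.HE
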