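import Pool.Agent.L7h93.HE.Count

/-!
# The number of the integral points which are large compared with the height of the polynomial
-/

set_option autoImplicit false

namespace Pool.Agent.L7h93.HE

open Finset Polynomial Filter Topology

/-- the largest absolute value of a coefficient -/
noncomputable def ht (f : ℤ[X]) : ℕ := f.support.sup fun i => (f.coeff i).natAbs

lemma coeff_le_ht (f : ℤ[X]) (i : ℕ) : (f.coeff i).natAbs ≤ ht f := by
  by_cases h : f.coeff i = 0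
  · rw [h]; simp
  · exact Finset.le_sup (f := fun i => (f.coeff i).natAbs) (mem_support_iff.2 h)

lemma one_le_ht {f : ℤ[X]} (hf : f ≠ 0) : 1 ≤ ht f := by
  refine le_trans ?_ (coeff_le_ht f f.natDegree)
  have : f.leadingCoeff ≠ 0 := leadingCoeff_ne_zero.2 hf
  exact Int.natAbs_pos.2 this

/-- the integral points `(x, y)` of the curves `y ^ 2 = f x`, `f` of degree `D` without repeated roots, with
`|x| > ht f ^ C` -/
def Viol (D : ℕ) (C : ℝ) (f : ℤ[X]) (x y : ℤ) : Prop :=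
  f.natDegree = D ∧ (f.map (Int.castRingHom ℚ)).Separable ∧ y ^ 2 = f.eval x ∧ (ht f : ℝ) ^ C < |(x : ℝ)|

/-- the pairs of a curve and an abscissa -/
def Pairs (D : ℕ) (C : ℝ) : Set (ℤ[X] × ℤ) := {p | ∃ y : ℤ, Viol D C p.1 p.2 y}

/-- the polynomials with bounded degrees and coefficients -/
noncomputable def box (D H : ℕ) : Finset ℤ[X] := by
  classical
  exact (Fintype.piFinset fun _ : Fin (D + 1) => Finset.Icc (-(H : ℤ)) H).image
    (fun g => ∑ i : Fin (D + 1), C (g i) * X ^ (i : ℕ))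

lemma mem_box {D H : ℕ} {f : ℤ[X]} (hD : f.natDegree ≤ D) (hH : ht f ≤ H) : f ∈ box D H := by
  classical
  unfold box
  rw [Finset.mem_image]
  refine ⟨fun i => f.coeff i, ?_, ?_⟩
  · rw [Fintype.mem_piFinset]
    intro i
    have := (coeff_le_ht f i).trans hH
    rw [Finset.mem_Icc]
    omega
  · have h1 := f.as_sum_range' (D + 1) (by omega)
    conv_rhs => rw [h1]
    rw [Finset.sum_range]
    refine Finset.sum_congr rfl fun i _ => ?_
    rw [C_mul_X_pow_eq_monomial]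

lemma card_box (D H : ℕ) : ((box D H).card : ℝ) ≤ (2 * H + 1) ^ (D + 1) := by
  classical
  unfold box
  have h1 := (Finset.card_image_le (s := Fintype.piFinset fun _ : Fin (D + 1) => Finset.Icc (-(H : ℤ)) H)
    (f := fun g => ∑ i : Fin (D + 1), C (g i) * X ^ (i : ℕ)))
  rw [Fintype.card_piFinset] at h1
  simp only [Int.card_Icc, Finset.prod_const, Finset.card_univ, Fintype.card_fin] at h1
  have h2 : ((H : ℤ) + 1 - -(H : ℤ)).toNat = 2 * H + 1 := by omega
  rw [h2] at h1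
  exact_mod_cast h1

open Classical in
/-- the count of the pairs -/
theorem pairs_count (D : ℕ) (hD : 1 ≤ D) (C : ℝ) (hC : 1 ≤ C) (ε : ℝ) (hε : 0 < ε) :
    ∃ K : ℝ, 0 ≤ K ∧ ∀ X : ℝ, 1 ≤ X → {p | p ∈ Pairs D C ∧ |(p.2 : ℝ)| ≤ X}.Finite ∧
      ({p | p ∈ Pairs D C ∧ |(p.2 : ℝ)| ≤ X}.ncard : ℝ) ≤ K * X ^ (1 / 2 + (D + 1) / C + ε) := by
  obtain ⟨K, N₀, hK, hN₀, hcount⟩ := count_sq D hD
  have hC0 : 0 < C := by linarith
  have hs : 0 ≤ 1 / 2 + (D + 1) / C + ε := by positivity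
  -- the large `X`
  have big : ∀ X : ℝ, (N₀ : ℝ) ≤ X → {p | p ∈ Pairs D C ∧ |(p.2 : ℝ)| ≤ X}.Finite ∧
      ({p | p ∈ Pairs D C ∧ |(p.2 : ℝ)| ≤ X}.ncard : ℝ) ≤
        (3 ^ (D + 1) * K / ε) * X ^ (1 / 2 + (D + 1) / C + ε) := by
    intro X hX
    have hN₀3 : (3 : ℝ) ≤ N₀ := by exact_mod_cast hN₀
    have hX1 : 1 ≤ X := by linarith
    have hX0 : 0 < X := by linarith
    obtain ⟨N, hN⟩ : ∃ N : ℕ, N = ⌊X⌋₊ := ⟨_, rfl⟩
    have hN1 : N₀ ≤ N := by rw [hN]; exact Nat.le_floor hX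
    have hNX : (N : ℝ) ≤ X := by rw [hN]; exact Nat.floor_le hX0.le
    obtain ⟨H, hH⟩ : ∃ H : ℕ, H = ⌊X ^ (1 / C)⌋₊ := ⟨_, rfl⟩
    have hHX : (H : ℝ) ≤ X ^ (1 / C) := by rw [hH]; exact Nat.floor_le (by positivity)
    have hHN : H ≤ N := by
      rw [hH, hN]
      apply Nat.floor_le_floor
      calc X ^ (1 / C) ≤ X ^ (1 : ℝ) := by
            apply Real.rpow_le_rpow_of_exponent_le hX1
            rw [div_le_one hC0]
            exact hC
        _ = X := Real.rpow_one X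
    obtain ⟨B, hB⟩ : ∃ B : Finset ℤ[X], B = (box D H).filter (fun f => f.natDegree = D ∧
      (f.map (Int.castRingHom ℚ)).Separable ∧ ht f ≤ H) := ⟨_, rfl⟩
    obtain ⟨T, hT⟩ : ∃ T : ℤ[X] → Finset ℤ, T = fun f => (Finset.Icc (-(N : ℤ)) N).filter
      (fun x => ∃ z : ℤ, f.eval x = z ^ 2) := ⟨_, rfl⟩
    have hTc : ∀ f ∈ B, ((T f).card : ℝ) ≤ K * (√(N : ℝ) * Real.log N) := by
      intro f hf
      rw [hB, mem_filter] at hf
      obtain ⟨-, h1, h2, h3⟩ := hf
      apply hcount N hN1 f (by omega) h1.le h2 (fun i => ?_)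
      · intro x hx
        rw [hT, mem_filter, Finset.mem_Icc] at hx
        exact ⟨abs_le.2 hx.1, hx.2⟩
      · have h4 := ((coeff_le_ht f i).trans h3).trans hHN
        have h5 : (((f.coeff i).natAbs : ℕ) : ℝ) ≤ N := by exact_mod_cast h4
        rw [Nat.cast_natAbs] at h5
        push_cast at h5
        exact h5
    have hsub : {p | p ∈ Pairs D C ∧ |(p.2 : ℝ)| ≤ X} ⊆ ((B.sigma T).image (fun p => (p.1, p.2)) :
        Finset (ℤ[X] × ℤ)) := by
      rintro ⟨f, x⟩ ⟨⟨y, h1, h2, h3, h4⟩, hx⟩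
      simp only at h1 h2 h3 h4 hx
      have hf0 : f ≠ 0 := by
        rintro rfl
        rw [natDegree_zero] at h1
        omega
      have hh0 : (0 : ℝ) ≤ ht f := Nat.cast_nonneg _
      have h5 : ht f ≤ H := by
        rw [hH]
        apply Nat.le_floor
        have h6 : (ht f : ℝ) ^ C ≤ X := h4.le.trans hx
        calc (ht f : ℝ) = ((ht f : ℝ) ^ C) ^ (1 / C) := by
              rw [← Real.rpow_mul hh0, mul_one_div_cancel hC0.ne', Real.rpow_one]
          _ ≤ X ^ (1 / C) := Real.rpow_le_rpow (by positivity) h6 (by positivity)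
      have h6 : |x| ≤ (N : ℤ) := by
        have h7 : ((x.natAbs : ℕ) : ℝ) ≤ X := by
          rw [Nat.cast_natAbs]
          push_cast
          exact hx
        have h8 := Nat.le_floor h7
        rw [← hN] at h8
        rw [Int.abs_eq_natAbs]
        exact_mod_cast h8
      simp only [Finset.coe_image, Set.mem_image, Finset.mem_coe, Finset.mem_sigma]
      refine ⟨⟨f, x⟩, ⟨?_, ?_⟩, rfl⟩
      · rw [hB, mem_filter]
        exact ⟨mem_box h1.le h5, h1, h2, h5⟩
      · rw [hT, mem_filter, Finset.mem_Icc]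
        exact ⟨abs_le.1 h6, y, h3.symm⟩
    refine ⟨(Finset.finite_toSet _).subset hsub, ?_⟩
    have h1 : (({p | p ∈ Pairs D C ∧ |(p.2 : ℝ)| ≤ X}.ncard : ℕ) : ℝ) ≤ ∑ f ∈ B, ((T f).card : ℝ) := by
      have h2 := Set.ncard_le_ncard hsub (Finset.finite_toSet _)
      rw [Set.ncard_coe_finset] at h2
      have h3 := h2.trans Finset.card_image_le
      rw [Finset.card_sigma] at h3
      exact_mod_cast h3
    refine h1.trans ((Finset.sum_le_sum hTc).trans ?_)
    rw [Finset.sum_const, nsmul_eq_mul]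
    have hBc : (B.card : ℝ) ≤ 3 ^ (D + 1) * X ^ (((D : ℝ) + 1) / C) := by
      have h2 : (B.card : ℝ) ≤ (box D H).card := by
        rw [hB]
        exact_mod_cast card_filter_le _ _
      refine h2.trans ((card_box D H).trans ?_)
      have h3 : (1 : ℝ) ≤ X ^ (1 / C) := Real.one_le_rpow hX1 (by positivity)
      calc (2 * (H : ℝ) + 1) ^ (D + 1) ≤ (3 * X ^ (1 / C)) ^ (D + 1) := by
            apply pow_le_pow_left₀ (by positivity)
            linarith
        _ = 3 ^ (D + 1) * X ^ (((D : ℝ) + 1) / C) := by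
            rw [mul_pow, ← Real.rpow_natCast (X ^ (1 / C)), ← Real.rpow_mul hX0.le]
            congr 2
            push_cast
            ring
    have hNc : √(N : ℝ) * Real.log N ≤ X ^ (1 / 2 : ℝ) * (X ^ ε / ε) := by
      have hN3 : (3 : ℝ) ≤ N := hN₀3.trans (by exact_mod_cast hN1)
      apply mul_le_mul _ _ (Real.log_nonneg (by linarith)) (by positivity)
      · rw [← Real.sqrt_eq_rpow]
        exact Real.sqrt_le_sqrt hNX
      · exact (Real.log_le_log (by linarith) hNX).trans (Real.log_le_rpow_div hX0.le hε)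
    calc (B.card : ℝ) * (K * (√(N : ℝ) * Real.log N))
        ≤ (3 ^ (D + 1) * X ^ (((D : ℝ) + 1) / C)) * (K * (X ^ (1 / 2 : ℝ) * (X ^ ε / ε))) := by
          apply mul_le_mul hBc _ _ (by positivity)
          · exact mul_le_mul_of_nonneg_left hNc hK.le
          · have hN3 : (3 : ℝ) ≤ N := hN₀3.trans (by exact_mod_cast hN1)
            have := Real.log_nonneg (show (1 : ℝ) ≤ N by linarith)
            positivity
      _ = (3 ^ (D + 1) * K / ε) * X ^ (1 / 2 + (D + 1) / C + ε) := by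
          rw [Real.rpow_add hX0, Real.rpow_add hX0]
          field_simp
  refine ⟨(3 ^ (D + 1) * K / ε) * (N₀ : ℝ) ^ (1 / 2 + (D + 1) / C + ε), by positivity, fun X hX => ?_⟩
  have hN₀1 : (1 : ℝ) ≤ N₀ := by
    have : (3 : ℝ) ≤ N₀ := by exact_mod_cast hN₀
    linarith
  rcases le_total (N₀ : ℝ) X with h | h
  · refine ⟨(big X h).1, (big X h).2.trans ?_⟩
    have h1 : (1 : ℝ) ≤ (N₀ : ℝ) ^ (1 / 2 + (D + 1) / C + ε) := Real.one_le_rpow hN₀1 hs
    have h2 : 0 ≤ (3 ^ (D + 1) * K / ε) := by positivity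
    apply mul_le_mul_of_nonneg_right _ (by positivity)
    nlinarith
  · have hsub : {p | p ∈ Pairs D C ∧ |(p.2 : ℝ)| ≤ X} ⊆ {p | p ∈ Pairs D C ∧ |(p.2 : ℝ)| ≤ N₀} :=
      fun p hp => ⟨hp.1, hp.2.trans h⟩
    refine ⟨(big N₀ le_rfl).1.subset hsub, ?_⟩
    have h1 := Set.ncard_le_ncard hsub (big N₀ le_rfl).1
    have h2 : (({p | p ∈ Pairs D C ∧ |(p.2 : ℝ)| ≤ X}.ncard : ℕ) : ℝ) ≤
        ({p | p ∈ Pairs D C ∧ |(p.2 : ℝ)| ≤ N₀}.ncard : ℕ) := by exact_mod_cast h1
    refine (h2.trans (big N₀ le_rfl).2).trans ?_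
    have h3 : (1 : ℝ) ≤ X ^ (1 / 2 + (D + 1) / C + ε) := Real.one_le_rpow hX hs
    have h4 : 0 ≤ (3 ^ (D + 1) * K / ε) * (N₀ : ℝ) ^ (1 / 2 + (D + 1) / C + ε) := by positivity
    nlinarith

end Pool.Agent.L7h93.HE
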