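import Pool.Agent.L7h93.HE.Fam

/-!
# The exceptional abscissas and ordinates
-/

set_option autoImplicit false

namespace Pool.Agent.L7h93.HE

open Finset Polynomial Filter Topology

/-- the exceptional abscissas -/
def Ex (D : ℕ) (C : ℝ) : Set ℕ := {t | ∃ (f : ℤ[X]) (x y : ℤ), Viol D C f x y ∧ x.natAbs = t}

/-- the exceptional ordinates -/
def Ey (D : ℕ) (C : ℝ) : Set ℕ := {t | ∃ (f : ℤ[X]) (x y : ℤ), Viol D C f x y ∧ y.natAbs = t}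

lemma natAbs_cast (x : ℤ) : ((x.natAbs : ℕ) : ℝ) = |(x : ℝ)| := by
  rw [Nat.cast_natAbs]
  push_cast
  rfl

/-- the exponent for the abscissas -/
noncomputable def sx (D : ℕ) (C : ℝ) : ℝ := 1 / 2 + (D + 1) / C

/-- the exponent for the ordinates -/
noncomputable def sy (D : ℕ) (C : ℝ) : ℝ := 1 / D + 2 * (D + 1) / (D * C)

theorem ex_count (D : ℕ) (hD : 1 ≤ D) (C : ℝ) (hC : 1 ≤ C) (ε : ℝ) (hε : 0 < ε) :
    ∃ K : ℝ, ∀ X : ℝ, 1 ≤ X → {t : ℕ | t ∈ Ex D C ∧ (t : ℝ) ≤ X}.Finite ∧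
      ({t : ℕ | t ∈ Ex D C ∧ (t : ℝ) ≤ X}.ncard : ℝ) ≤ K * X ^ (sx D C + ε) := by
  obtain ⟨K, hK, h⟩ := pairs_count D hD C hC ε hε
  refine ⟨K, fun X hX => ?_⟩
  obtain ⟨h1, h2⟩ := h X hX
  have hsub : {t : ℕ | t ∈ Ex D C ∧ (t : ℝ) ≤ X} ⊆
      (fun p : ℤ[X] × ℤ => p.2.natAbs) '' {p | p ∈ Pairs D C ∧ |(p.2 : ℝ)| ≤ X} := by
    rintro t ⟨⟨f, x, y, hv, rfl⟩, ht⟩
    refine ⟨(f, x), ⟨⟨y, hv⟩, ?_⟩, rfl⟩
    rw [natAbs_cast] at ht
    exact ht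
  refine ⟨(h1.image _).subset hsub, le_trans ?_ h2⟩
  have h3 := (Set.ncard_le_ncard hsub (h1.image _)).trans (Set.ncard_image_le h1)
  exact_mod_cast h3

/-- the leading term dominates -/
lemma eval_large {D : ℕ} {C : ℝ} (hD : 1 ≤ D) (hC : 2 ≤ C) {f : ℤ[X]} {x y : ℤ} (h : Viol D C f x y) :
    |(x : ℝ)| ≤ 16 ∨ |(x : ℝ)| ^ D ≤ 2 * |(y : ℝ)| ^ 2 := by
  obtain ⟨h1, -, h3, h4⟩ := h
  have hf0 : f ≠ 0 := by
    rintro rfl
    rw [natDegree_zero] at h1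
    omega
  have hh1 : (1 : ℝ) ≤ ht f := by exact_mod_cast one_le_ht hf0
  rcases le_total |(x : ℝ)| 16 with hx | hx
  · exact Or.inl hx
  right
  obtain ⟨r, hr⟩ : ∃ r : ℝ, r = |(x : ℝ)| := ⟨_, rfl⟩
  rw [← hr] at hx h4 ⊢
  have hh2 : (ht f : ℝ) ^ 2 < r := by
    refine lt_of_le_of_lt ?_ h4
    rw [← Real.rpow_natCast]
    exact Real.rpow_le_rpow_of_exponent_le hh1 (by exact_mod_cast hC)
  have hh3 : 4 * (ht f : ℝ) ≤ r := by
    by_contra hcon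
    push Not at hcon
    nlinarith
  -- the sum
  have e1 : ((f.eval x : ℤ) : ℝ) = (∑ i ∈ range D, ((f.coeff i : ℤ) : ℝ) * (x : ℝ) ^ i) + (f.coeff D : ℝ) * (x : ℝ) ^ D := by
    have := f.eval_eq_sum_range x
    rw [h1, Finset.sum_range_succ] at this
    rw [this]
    push_cast
    rfl
  have e2 : |∑ i ∈ range D, ((f.coeff i : ℤ) : ℝ) * (x : ℝ) ^ i| ≤ r ^ D / 2 := by
    have h5 : |∑ i ∈ range D, ((f.coeff i : ℤ) : ℝ) * (x : ℝ) ^ i| ≤ ∑ i ∈ range D, (ht f : ℝ) * r ^ i := by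
      refine (abs_sum_le_sum_abs _ _).trans (Finset.sum_le_sum fun i _ => ?_)
      rw [abs_mul, abs_pow, ← hr]
      apply mul_le_mul_of_nonneg_right _ (by positivity)
      have := coeff_le_ht f i
      have h6 : (((f.coeff i).natAbs : ℕ) : ℝ) ≤ ht f := by exact_mod_cast this
      rwa [natAbs_cast] at h6
    refine h5.trans ?_
    rw [← Finset.mul_sum, geom_sum_eq (by linarith)]
    have h6 : 0 < r - 1 := by linarith
    have h7 : 0 ≤ r ^ D := by positivity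
    rw [mul_div_assoc', div_le_div_iff₀ h6 (by norm_num)]
    nlinarith
  have e3 : r ^ D ≤ |(f.coeff D : ℝ) * (x : ℝ) ^ D| := by
    rw [abs_mul, abs_pow, ← hr]
    have h5 : f.coeff D ≠ 0 := by
      rw [← h1]
      exact leadingCoeff_ne_zero.2 hf0
    have h6 : (1 : ℝ) ≤ |(f.coeff D : ℝ)| := by
      exact_mod_cast Int.one_le_abs h5
    have : 0 ≤ r ^ D := by positivity
    nlinarith
  have e4 : |(y : ℝ)| ^ 2 = |((f.eval x : ℤ) : ℝ)| := by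
    rw [← h3]
    push_cast
    rw [abs_pow]
  rw [e4, e1]
  have e5 := abs_add_le ((∑ i ∈ range D, ((f.coeff i : ℤ) : ℝ) * (x : ℝ) ^ i) + (f.coeff D : ℝ) * (x : ℝ) ^ D)
    (-(∑ i ∈ range D, ((f.coeff i : ℤ) : ℝ) * (x : ℝ) ^ i))
  rw [abs_neg, add_neg_cancel_comm] at e5
  linarith

theorem ey_count (D : ℕ) (hD : 1 ≤ D) (C : ℝ) (hC : 2 ≤ C) (ε : ℝ) (hε : 0 < ε) :
    ∃ K : ℝ, ∀ X : ℝ, 1 ≤ X → {t : ℕ | t ∈ Ey D C ∧ (t : ℝ) ≤ X}.Finite ∧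
      ({t : ℕ | t ∈ Ey D C ∧ (t : ℝ) ≤ X}.ncard : ℝ) ≤ K * X ^ (sy D C + ε) := by
  have hD0 : (0 : ℝ) < D := by exact_mod_cast hD
  have hD1 : (1 : ℝ) ≤ D := by exact_mod_cast hD
  have hC0 : 0 < C := by linarith
  obtain ⟨δ, hδ⟩ : ∃ δ : ℝ, δ = D * ε / 2 := ⟨_, rfl⟩
  obtain ⟨K, hK, h⟩ := pairs_count D hD C (by linarith) δ (by rw [hδ]; positivity)
  refine ⟨K * 16 ^ (1 / 2 + (D + 1) / C + δ), fun X hX => ?_⟩
  have hX0 : 0 < X := by linarith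
  obtain ⟨Z, hZ⟩ : ∃ Z : ℝ, Z = 16 * X ^ (2 / (D : ℝ)) := ⟨_, rfl⟩
  have hXp : (1 : ℝ) ≤ X ^ (2 / (D : ℝ)) := Real.one_le_rpow hX (by positivity)
  have hZ16 : 16 ≤ Z := by rw [hZ]; linarith
  obtain ⟨h1, h2⟩ := h Z (by linarith)
  have hsub : {t : ℕ | t ∈ Ey D C ∧ (t : ℝ) ≤ X} ⊆
      (fun p : ℤ[X] × ℤ => Nat.sqrt (p.1.eval p.2).natAbs) '' {p | p ∈ Pairs D C ∧ |(p.2 : ℝ)| ≤ Z} := by
    rintro t ⟨⟨f, x, y, hv, rfl⟩, ht⟩
    refine ⟨(f, x), ⟨⟨y, hv⟩, ?_⟩, ?_⟩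
    · rw [natAbs_cast] at ht
      simp only
      rcases eval_large hD hC hv with h3 | h3
      · linarith
      · have h4 : |(x : ℝ)| ^ D ≤ Z ^ D := by
          refine h3.trans ?_
          have h5 : |(y : ℝ)| ^ 2 ≤ X ^ 2 := pow_le_pow_left₀ (abs_nonneg _) ht 2
          have h6 : Z ^ D = 16 ^ D * X ^ 2 := by
            rw [hZ, mul_pow, ← Real.rpow_natCast (X ^ (2 / (D : ℝ))), ← Real.rpow_mul hX0.le,
              div_mul_cancel₀ _ hD0.ne']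
            norm_num
          rw [h6]
          have h7 : (16 : ℝ) ≤ 16 ^ D := by
            calc (16 : ℝ) = 16 ^ 1 := by norm_num
              _ ≤ 16 ^ D := pow_le_pow_right₀ (by norm_num) hD
          have : 0 ≤ X ^ 2 := by positivity
          nlinarith
        exact le_of_pow_le_pow_left₀ (by omega) (by linarith) h4
    · simp only
      rw [← hv.2.2.1, Int.natAbs_pow, sq]
      exact Nat.sqrt_eq _
  refine ⟨(h1.image _).subset hsub, ?_⟩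
  have h3 := (Set.ncard_le_ncard hsub (h1.image _)).trans (Set.ncard_image_le h1)
  have h4 : (({t : ℕ | t ∈ Ey D C ∧ (t : ℝ) ≤ X}.ncard : ℕ) : ℝ) ≤
      K * Z ^ (1 / 2 + (D + 1) / C + δ) := le_trans (by exact_mod_cast h3) h2
  refine h4.trans (le_of_eq ?_)
  rw [hZ, Real.mul_rpow (by norm_num) (by positivity), ← Real.rpow_mul hX0.le, sy, mul_assoc]
  congr 3
  rw [hδ]
  field_simp

end Pool.Agent.L7h93.HE
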