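import Mathlib
import Pool.Agent.R418.UP.D
import Pool.Agent.TH375.KL.Sieve

/-!
# Square values of polynomials, uniformly in the polynomial (large sieve)
-/

set_option autoImplicit false

namespace Pool.Agent.L7h93.HE

open Finset Polynomial Filter Topology

/-- the Jacobi symbol of the value of `f` at the residue `a` -/
noncomputable def js (f : ℤ[X]) (p : ℕ) (a : ZMod p) : ℝ := (jacobiSym (f.eval (a.val : ℤ)) p : ℝ)

/-- the mean value -/
noncomputable def mu (f : ℤ[X]) (p : ℕ) : ℝ := (∑ n ∈ range p, (jacobiSym (f.eval (n : ℤ)) p : ℝ)) / p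

/-- the centred symbol -/
noncomputable def gg (f : ℤ[X]) (p : ℕ) (a : ZMod p) : ℝ := js f p a - mu f p

lemma js_cast (f : ℤ[X]) {p : ℕ} (hp : p.Prime) (x : ℤ) :
    js f p (x : ZMod p) = (jacobiSym (f.eval x) p : ℝ) := by
  have : Fact p.Prime := ⟨hp⟩
  unfold js
  congr 1
  apply jacobiSym.mod_left'
  have h1 := Polynomial.sub_dvd_eval_sub (x : ℤ) (((x : ZMod p).val : ℕ) : ℤ) f
  have h2 : (p : ℤ) ∣ x - (((x : ZMod p).val : ℕ) : ℤ) := by
    rw [← ZMod.intCast_eq_intCast_iff_dvd_sub]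
    push_cast
    exact ZMod.natCast_zmod_val _
  exact (Int.modEq_iff_dvd.mpr (h2.trans h1))

lemma js_natCast (f : ℤ[X]) {p : ℕ} (hp : p.Prime) (n : ℕ) :
    js f p (n : ZMod p) = (jacobiSym (f.eval (n : ℤ)) p : ℝ) := by
  have := js_cast f hp (n : ℤ)
  rwa [Int.cast_natCast] at this

lemma abs_jac (a : ℤ) (p : ℕ) : |(jacobiSym a p : ℝ)| ≤ 1 := by
  rcases jacobiSym.trichotomy a p with h | h | h <;> rw [h] <;> norm_num

lemma sum_gg (f : ℤ[X]) {p : ℕ} (hp : p.Prime) : ∑ a ∈ range p, gg f p (a : ZMod p) = 0 := by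
  unfold gg
  rw [Finset.sum_sub_distrib, Finset.sum_const, card_range, nsmul_eq_mul]
  have hp0 : (p : ℝ) ≠ 0 := by exact_mod_cast hp.ne_zero
  have h1 : ∑ a ∈ range p, js f p (a : ZMod p) = ∑ n ∈ range p, (jacobiSym (f.eval (n : ℤ)) p : ℝ) :=
    Finset.sum_congr rfl fun n _ => js_natCast f hp n
  rw [h1, mu]
  field_simp
  ring

lemma abs_mu_le_one (f : ℤ[X]) {p : ℕ} (hp : p.Prime) : |mu f p| ≤ 1 := by
  have hp0 : (0 : ℝ) < p := by exact_mod_cast hp.pos
  rw [mu, abs_div, abs_of_pos hp0, div_le_one hp0]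
  refine (abs_sum_le_sum_abs _ _).trans ?_
  calc ∑ n ∈ range p, |(jacobiSym (f.eval (n : ℤ)) p : ℝ)| ≤ ∑ _n ∈ range p, (1 : ℝ) :=
        Finset.sum_le_sum fun n _ => abs_jac _ _
    _ = p := by simp

lemma sum_gg_sq (f : ℤ[X]) {p : ℕ} (hp : p.Prime) :
    (∑ a ∈ range p, gg f p (a : ZMod p) ^ 2) / p ≤ 4 := by
  have hp0 : (0 : ℝ) < p := by exact_mod_cast hp.pos
  rw [div_le_iff₀ hp0]
  calc ∑ a ∈ range p, gg f p (a : ZMod p) ^ 2 ≤ ∑ _a ∈ range p, (4 : ℝ) := by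
        refine Finset.sum_le_sum fun a _ => ?_
        have h1 : |gg f p (a : ZMod p)| ≤ 2 := by
          unfold gg
          refine (abs_sub _ _).trans ?_
          have := abs_mu_le_one f hp
          have h2 : |js f p (a : ZMod p)| ≤ 1 := abs_jac _ _
          linarith
        rw [← sq_abs]
        have := abs_nonneg (gg f p (a : ZMod p))
        nlinarith
    _ = 4 * p := by rw [Finset.sum_const, card_range, nsmul_eq_mul, mul_comm]

lemma mu_small (f : ℤ[X]) (hd : 1 ≤ f.natDegree) {p : ℕ} (hp : p.Prime) (hp2 : p ≠ 2)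
    (hb : ¬ (p : ℤ) ∣ Pool.Agent.R418.UP.bad f) (hbig : 16 * f.natDegree ^ 2 ≤ p) :
    |mu f p| ≤ 1 / 4 := by
  have hp0 : (0 : ℝ) < p := by exact_mod_cast hp.pos
  have h1 := Pool.Agent.R418.UP.weil_poly f hd p hp hp2 hb
  have h2 : |(∑ n ∈ range p, (jacobiSym (f.eval (n : ℤ)) p : ℝ))| ≤ f.natDegree * √p := by
    push_cast at h1
    exact h1
  rw [mu, abs_div, abs_of_pos hp0, div_le_iff₀ hp0]
  refine h2.trans ?_
  have h3 : (4 * (f.natDegree : ℝ)) ≤ √(p : ℝ) := by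
    apply Real.le_sqrt_of_sq_le
    have : ((16 * f.natDegree ^ 2 : ℕ) : ℝ) ≤ p := by exact_mod_cast hbig
    push_cast at this
    nlinarith
  have h4 : √(p : ℝ) * √(p : ℝ) = p := Real.mul_self_sqrt hp0.le
  have h5 : 0 ≤ √(p : ℝ) := Real.sqrt_nonneg _
  nlinarith

/-- the symbols at a point where the value is a nonzero square -/
lemma sum_at (f : ℤ[X]) (P : Finset ℕ) (hP : ∀ p ∈ P, p.Prime)
    (hmu : ∀ p ∈ P, |mu f p| ≤ 1 / 4) (x z : ℤ) (hz : z ≠ 0) (hxz : f.eval x = z ^ 2) (L : ℝ)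
    (hL : 2 * Real.log |(z : ℝ)| ≤ L) (hL2 : L ≤ P.card / 8) :
    (P.card : ℝ) / 2 ≤ ∑ p ∈ P, gg f p (x : ZMod p) := by
  classical
  have h1 : ∀ p ∈ P, (3 / 4 : ℝ) - (if (p : ℤ) ∣ z then (1 : ℝ) else 0) ≤ gg f p (x : ZMod p) := by
    intro p hp
    unfold gg
    rw [js_cast f (hP p hp)]
    have h2 := abs_le.1 (hmu p hp)
    split_ifs with h
    · have h3 : 0 ≤ (jacobiSym (f.eval x) p : ℝ) := by
        rw [hxz]
        have : jacobiSym (z ^ 2) p = (jacobiSym z p) ^ 2 := jacobiSym.pow_left _ _ _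
        rw [this]
        push_cast
        positivity
      linarith [h2.2]
    · have h3 : jacobiSym (f.eval x) p = 1 := by
        rw [hxz]
        apply jacobiSym.sq_one'
        have := (Nat.Prime.coprime_iff_not_dvd (hP p hp)).2 (fun h' => h (Int.natCast_dvd.2 h'))
        rw [Int.gcd, Int.natAbs_natCast]
        exact this.symm
      rw [h3]
      push_cast
      linarith [h2.2]
  have h2 : ((P.filter (fun p : ℕ => (p : ℤ) ∣ z)).card : ℝ) ≤ L := by
    refine le_trans ?_ hL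
    have hz0 : z.natAbs ≠ 0 := Int.natAbs_ne_zero.2 hz
    have h3 := Pool.Agent.Y549.SP.SPL.card_primeFactors_le z.natAbs hz0
    have h4 : (P.filter (fun p : ℕ => (p : ℤ) ∣ z)) ⊆ z.natAbs.primeFactors := by
      intro p hp
      rw [mem_filter] at hp
      exact Nat.mem_primeFactors.mpr ⟨hP p hp.1, Int.natCast_dvd.mp hp.2, hz0⟩
    have h5 : ((P.filter (fun p : ℕ => (p : ℤ) ∣ z)).card : ℝ) ≤ z.natAbs.primeFactors.card := by
      exact_mod_cast card_le_card h4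
    have h6 : ((z.natAbs : ℕ) : ℝ) = |(z : ℝ)| := by
      rw [Nat.cast_natAbs]
      push_cast
      rfl
    rw [h6] at h3
    exact h5.trans h3
  have h3 : ∑ p ∈ P, ((3 / 4 : ℝ) - (if (p : ℤ) ∣ z then (1 : ℝ) else 0)) =
      3 / 4 * P.card - (P.filter (fun p : ℕ => (p : ℤ) ∣ z)).card := by
    rw [Finset.sum_sub_distrib, Finset.sum_const, nsmul_eq_mul, Finset.sum_ite]
    simp
    ring
  have h4 := Finset.sum_le_sum h1
  rw [h3] at h4
  refine le_trans ?_ h4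
  have : (0 : ℝ) ≤ P.card := Nat.cast_nonneg _
  linarith

/-- the sieve -/
theorem sieve (f : ℤ[X]) (N F : ℕ) (hF : F ^ 2 ≤ N) (P : Finset ℕ) (hP : ∀ p ∈ P, p.Prime ∧ p ≤ F)
    (hmu : ∀ p ∈ P, |mu f p| ≤ 1 / 4) (L : ℝ) (hL2 : L ≤ P.card / 8) (T : Finset ℤ)
    (hT : ∀ x ∈ T, |x| ≤ N ∧ ∃ z : ℤ, z ≠ 0 ∧ f.eval x = z ^ 2 ∧ 2 * Real.log |(z : ℝ)| ≤ L) :
    (T.card : ℝ) * P.card ≤ 96 * (3 * N + 1) := by
  classical
  have h1 := Pool.Agent.TH375.KL.dual F (2 * N + 1) P hP (-(N : ℤ) - 1) (gg f)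
    (fun p hp => sum_gg f (hP p hp).1)
  have h2 : ∑ p ∈ P, (∑ a ∈ range p, gg f p (a : ZMod p) ^ 2) / p ≤ 4 * P.card := by
    calc ∑ p ∈ P, (∑ a ∈ range p, gg f p (a : ZMod p) ^ 2) / p ≤ ∑ _p ∈ P, (4 : ℝ) :=
          Finset.sum_le_sum fun p hp => sum_gg_sq f (hP p hp).1
      _ = 4 * P.card := by rw [Finset.sum_const, nsmul_eq_mul, mul_comm]
  have hFr : ((F : ℝ)) ^ 2 ≤ N := by exact_mod_cast hF
  have hPc : (0 : ℝ) ≤ P.card := Nat.cast_nonneg _
  have h3 : 6 * (((2 * N + 1 : ℕ) : ℝ) + (F : ℝ) ^ 2) *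
      ∑ p ∈ P, (∑ a ∈ range p, gg f p (a : ZMod p) ^ 2) / p ≤ 24 * (3 * N + 1) * P.card := by
    push_cast
    calc 6 * ((2 * (N : ℝ) + 1) + (F : ℝ) ^ 2) * ∑ p ∈ P, (∑ a ∈ range p, gg f p (a : ZMod p) ^ 2) / p
        ≤ 6 * ((2 * (N : ℝ) + 1) + N) * (4 * P.card) := by
          apply mul_le_mul _ h2 _ (by positivity)
          · have : (0 : ℝ) ≤ N := Nat.cast_nonneg _
            nlinarith
          · exact Finset.sum_nonneg fun p _ => by positivity
      _ = 24 * (3 * N + 1) * P.card := by ring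
  have h4 : (T.card : ℝ) * ((P.card : ℝ) / 2) ^ 2 ≤
      ∑ n ∈ Icc 1 (2 * N + 1), (∑ p ∈ P, gg f p (((-(N : ℤ) - 1) + (n : ℤ) : ℤ) : ZMod p)) ^ 2 := by
    rw [← nsmul_eq_mul, ← Finset.sum_const]
    calc ∑ _x ∈ T, ((P.card : ℝ) / 2) ^ 2
        ≤ ∑ x ∈ T, (∑ p ∈ P, gg f p (x : ZMod p)) ^ 2 := by
          refine Finset.sum_le_sum fun x hx => ?_
          obtain ⟨-, z, hz, hxz, hzL⟩ := hT x hx
          have := sum_at f P (fun p hp => (hP p hp).1) hmu x z hz hxz L hzL hL2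
          exact pow_le_pow_left₀ (by positivity) this 2
      _ = ∑ n ∈ T.image (fun x : ℤ => (x + N + 1).toNat),
            (∑ p ∈ P, gg f p (((-(N : ℤ) - 1) + (n : ℤ) : ℤ) : ZMod p)) ^ 2 := by
          rw [Finset.sum_image]
          · refine Finset.sum_congr rfl fun x hx => ?_
            have h5 := abs_le.1 (hT x hx).1
            have h6 : (-(N : ℤ) - 1) + ((x + N + 1).toNat : ℤ) = x := by
              rw [Int.toNat_of_nonneg (by omega)]
              ring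
            rw [h6]
          · intro x hx y hy hxy
            have h5 := abs_le.1 (hT x hx).1
            have h6 := abs_le.1 (hT y hy).1
            have h7 : (x + N + 1).toNat = (y + N + 1).toNat := hxy
            omega
      _ ≤ _ := by
          refine Finset.sum_le_sum_of_subset_of_nonneg ?_ fun _ _ _ => sq_nonneg _
          intro n hn
          obtain ⟨x, hx, rfl⟩ := Finset.mem_image.1 hn
          have h5 := abs_le.1 (hT x hx).1
          rw [Finset.mem_Icc]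
          omega
  have h5 : (T.card : ℝ) * ((P.card : ℝ) / 2) ^ 2 ≤ 24 * (3 * N + 1) * P.card :=
    h4.trans (h1.trans h3)
  rcases hPc.eq_or_lt with h0 | h0
  · rw [← h0, mul_zero]
    positivity
  · have h6 : (T.card : ℝ) * P.card * P.card ≤ 96 * (3 * N + 1) * P.card := by nlinarith
    exact le_of_mul_le_mul_right h6 h0

end Pool.Agent.L7h93.HE
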